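import Pool.Agent.Helper94.FV.KB2

/-!
# Subfields of transcendence degree one of finitely generated fields
-/

namespace Pool.Agent.Helper43.FV

open Pool.Agent.Helper43.RS

/-- algebraic dependence on a nonconstant element -/
lemma FGF_alg {K : Type} [Field K] [Algebra ℂ K] {t z : K} (ht : ∀ c : ℂ, t ≠ algebraMap ℂ K c)
    (h : AlgDep z t) : IsAlgebraic (IntermediateField.adjoin ℂ {t}) z := by
  obtain ⟨Q, hQ0, hQz, hQc⟩ := KB2_poly ht h
  have h5 : Q ∈ Polynomial.lifts (algebraMap (IntermediateField.adjoin ℂ {t}) K) := by
    rw [Polynomial.lifts_iff_coeff_lifts]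
    intro n
    obtain ⟨f, hf⟩ := hQc n
    have hmem : MvPolynomial.aeval ![t] f ∈ IntermediateField.adjoin ℂ {t} := by
      clear hf
      induction f using MvPolynomial.induction_on with
      | C a =>
        rw [MvPolynomial.aeval_C]
        exact IntermediateField.algebraMap_mem _ a
      | add p q hp hq =>
        rw [map_add]
        exact add_mem hp hq
      | mul_X p i hp =>
        rw [map_mul, MvPolynomial.aeval_X]
        refine mul_mem hp ?_
        fin_cases i
        exact IntermediateField.mem_adjoin_simple_self ℂ t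
    exact ⟨⟨_, hmem⟩, hf.symm⟩
  obtain ⟨q, hq⟩ := (Polynomial.mem_lifts _).1 h5
  refine ⟨q, ?_, ?_⟩
  · rintro rfl
    rw [Polynomial.map_zero] at hq
    exact hQ0 hq.symm
  · rw [Polynomial.aeval_def, Polynomial.eval₂_eq_eval_map, hq, hQz]

open scoped IntermediateField.algebraAdjoinAdjoin in
/-- linear disjointness of algebraic and purely transcendental extensions -/
lemma FGF_indep {E K : Type} [Field E] [Field K] [Algebra E K] {b : Type} {x : b → K}
    (hx : AlgebraicIndependent E x) (F : IntermediateField E K) [Algebra.IsAlgebraic E F]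
    {ι : Type} {f : ι → F} (hf : LinearIndependent E f) :
    LinearIndependent (IntermediateField.adjoin E (Set.range x)) (fun i => (f i : K)) := by
  rw [← LinearIndependent.iff_fractionRing (R := Algebra.adjoin E (Set.range x))]
  rw [linearIndependent_iff']
  intro s g hg i hi
  have hx' : AlgebraicIndependent F x := hx.extendScalars F
  have hp : ∀ i, ∃ p : MvPolynomial b E, MvPolynomial.aeval x p = (g i : K) := by
    intro i
    have h1 : (g i : K) ∈ (MvPolynomial.aeval x : MvPolynomial b E →ₐ[E] K).range :=
      (Algebra.adjoin_range_eq_range_aeval E x) ▸ (g i).2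
    obtain ⟨p, hp⟩ := h1
    exact ⟨p, hp⟩
  choose p hp using hp
  have h1 : MvPolynomial.aeval x
      (∑ i ∈ s, MvPolynomial.C (f i) * (p i).map (algebraMap E F)) = 0 := by
    rw [map_sum, ← hg]
    refine Finset.sum_congr rfl fun i _ => ?_
    rw [map_mul, MvPolynomial.aeval_C, MvPolynomial.aeval_map_algebraMap, hp, mul_comm]
    rfl
  have h2 : ∑ i ∈ s, MvPolynomial.C (f i) * (p i).map (algebraMap E F) = 0 := by
    apply hx'
    rw [h1, map_zero]
  have h3 : p i = 0 := by
    ext m
    have h4 := congrArg (MvPolynomial.coeff m) h2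
    rw [MvPolynomial.coeff_sum] at h4
    simp only [MvPolynomial.coeff_C_mul, MvPolynomial.coeff_map, MvPolynomial.coeff_zero] at h4
    have h5 : ∑ i ∈ s, (p i).coeff m • f i = 0 := by
      rw [← h4]
      exact Finset.sum_congr rfl fun i _ => by rw [Algebra.smul_def, mul_comm]
    exact linearIndependent_iff'.1 hf s _ h5 i hi
  apply Subtype.ext
  rw [← hp, h3, map_zero]
  rfl

/-- algebraic subextensions of finitely generated extensions are finite -/
lemma FGF_finite {E K : Type} [Field E] [Field K] [Algebra E K] [Algebra.EssFiniteType E K]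
    (F : IntermediateField E K) [Algebra.IsAlgebraic E F] : Module.Finite E F := by
  obtain ⟨b, x, hx⟩ := exists_isTranscendenceBasis' E K
  have halg := hx.isAlgebraic_field
  have h1 : Algebra.EssFiniteType (IntermediateField.adjoin E (Set.range x)) K :=
    Algebra.EssFiniteType.of_comp E _ K
  have h2 : Module.Finite (IntermediateField.adjoin E (Set.range x)) K :=
    Algebra.finite_of_essFiniteType_of_isAlgebraic
  have h3 := FGF_indep hx.1 F (Module.Free.chooseBasis E F).linearIndependent
  have h4 := h3.finite
  exact Module.Finite.of_basis (Module.Free.chooseBasis E F)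

theorem st_FGF : ST_FGF := by
  intro K _ _ hs F hdep hnc
  refine ⟨?_, hnc, hdep⟩
  obtain ⟨s, hs⟩ := hs
  obtain ⟨t, ht⟩ := hnc
  have hK : Algebra.EssFiniteType ℂ K := IntermediateField.fg_top_iff.1 ⟨s, hs⟩
  have htc : ∀ c : ℂ, (t : K) ≠ algebraMap ℂ K c := fun c h => ht c (Subtype.ext h)
  set E := IntermediateField.adjoin ℂ {(t : K)} with hE
  have hEF : E ≤ F := by
    rw [hE, IntermediateField.adjoin_le_iff]
    intro y hy
    rw [Set.mem_singleton_iff] at hy
    rw [hy]
    exact t.2
  have hEK : Algebra.EssFiniteType E K := Algebra.EssFiniteType.of_comp ℂ E K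
  have halg : Algebra.IsAlgebraic E (IntermediateField.extendScalars hEF) := by
    refine ⟨fun z => ?_⟩
    have hz : (z : K) ∈ F := z.2
    have h1 : AlgDep (z : K) (t : K) := by
      obtain ⟨p, hp0, hp⟩ := hdep ⟨z, hz⟩ t
      refine ⟨p, hp0, ?_⟩
      have h2 := congrArg F.val hp
      rw [map_zero] at h2
      have h3 := MvPolynomial.comp_aeval_apply (f := ![(⟨z, hz⟩ : F), t]) F.val p
      rw [h2] at h3
      refine Eq.trans ?_ h3.symm
      refine congrArg (fun v => MvPolynomial.aeval v p) ?_
      funext i
      fin_cases i <;> rfl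
    have h2 := FGF_alg htc h1
    exact (isAlgebraic_algHom_iff (IntermediateField.extendScalars hEF).val
      Subtype.val_injective).1 h2
  have hfin := FGF_finite (IntermediateField.extendScalars hEF)
  have hE1 : Algebra.EssFiniteType ℂ E := by
    rw [IntermediateField.essFiniteType_iff]
    exact IntermediateField.fg_adjoin_of_finite (Set.finite_singleton _)
  have h1 : Algebra.EssFiniteType ℂ (IntermediateField.extendScalars hEF) :=
    Algebra.EssFiniteType.comp ℂ E _
  have h2 : Algebra.EssFiniteType ℂ F := h1
  exact IntermediateField.fg_top ℂ F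

end Pool.Agent.Helper43.FV
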