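import Pool.Agent.Helper43.FV.Spec

/-!
# The invariants of a Borel subgroup on a field with a nonconstant invariant
-/

namespace Pool.Agent.Helper43.FV

open Pool.Agent.Helper43.RS

/-- Nullstellensatz: maximal ideals are kernels of points -/
lemma KB2_max {A : Type} [CommRing A] [Algebra ℂ A] [Algebra.FiniteType ℂ A] (m : Ideal A)
    (hm : m.IsMaximal) : ∃ b : A →ₐ[ℂ] ℂ, RingHom.ker b = m := by
  let _ : Field (A ⧸ m) := Ideal.Quotient.field m
  have _ : Algebra.FiniteType ℂ (A ⧸ m) :=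
    Algebra.FiniteType.of_surjective (Ideal.Quotient.mkₐ ℂ m) Ideal.Quotient.mk_surjective
  have _ : Module.Finite ℂ (A ⧸ m) := finite_of_finite_type_of_isJacobsonRing ℂ (A ⧸ m)
  have hbij : Function.Bijective (algebraMap ℂ (A ⧸ m)) :=
    IsAlgClosed.algebraMap_bijective_of_isIntegral
  let e : ℂ ≃ₐ[ℂ] (A ⧸ m) := AlgEquiv.ofBijective (Algebra.ofId ℂ (A ⧸ m)) hbij
  refine ⟨(e.symm : (A ⧸ m) →ₐ[ℂ] ℂ).comp (Ideal.Quotient.mkₐ ℂ m), ?_⟩
  ext a
  rw [RingHom.mem_ker]
  constructor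
  · intro h
    have h1 : e.symm (Ideal.Quotient.mk m a) = 0 := h
    rw [map_eq_zero_iff _ e.symm.injective] at h1
    exact Ideal.Quotient.eq_zero_iff_mem.1 h1
  · intro h
    have h1 : e.symm (Ideal.Quotient.mk m a) = 0 := by
      rw [Ideal.Quotient.eq_zero_iff_mem.2 h, map_zero]
    exact h1

/-- nonzero functions have points where they do not vanish -/
lemma KB2_pt {A : Type} [CommRing A] [IsDomain A] [Algebra ℂ A] [Algebra.FiniteType ℂ A]
    (a : A) (ha : a ≠ 0) : ∃ φ : A →ₐ[ℂ] ℂ, φ a ≠ 0 := by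
  by_contra hcon
  push Not at hcon
  have hJ : IsJacobsonRing A := isJacobsonRing_of_finiteType (A := ℂ)
  have h2 : Ideal.jacobson (⊥ : Ideal A) = ⊥ := hJ.out Ideal.isPrime_bot.isRadical
  have h1 : a ∈ Ideal.jacobson (⊥ : Ideal A) := by
    rw [Ideal.mem_jacobson_bot]
    intro y
    by_contra hu
    obtain ⟨m, hm, hmem⟩ := exists_max_ideal_of_mem_nonunits hu
    obtain ⟨b, hb⟩ := KB2_max m hm
    rw [← hb, RingHom.mem_ker, map_add, map_mul, hcon b, zero_mul, zero_add, map_one] at hmem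
    exact one_ne_zero hmem
  rw [h2, Ideal.mem_bot] at h1
  exact ha h1

section

variable {G K : Type} [Field K] [Algebra ℂ K] {H : Subalgebra ℂ (G → ℂ)}

lemma KB2_scale {P : G → K} (hP : GFam H P) (s : K) : GFam H (fun g => s * P g) := by
  obtain ⟨n, h, k, hh, hk⟩ := hP
  refine ⟨n, h, fun i => s * k i, hh, fun g => ?_⟩
  show s * P g = ∑ i, h i g • (s * k i)
  rw [hk g, Finset.mul_sum]
  exact Finset.sum_congr rfl fun i _ => by rw [mul_smul_comm]

lemma KB2_add {P Q : G → K} (hP : GFam H P) (hQ : GFam H Q) : GFam H (fun g => P g + Q g) := by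
  obtain ⟨n, h, k, hh, hk⟩ := hP
  obtain ⟨n', h', k', hh', hk'⟩ := hQ
  refine ⟨n + n', Fin.append h h', Fin.append k k', ?_, fun g => ?_⟩
  · intro i
    refine Fin.addCases (fun j => ?_) (fun j => ?_) i
    · rw [Fin.append_left]
      exact hh j
    · rw [Fin.append_right]
      exact hh' j
  · show P g + Q g = _
    rw [hk g, hk' g, Fin.sum_univ_add]
    simp [Fin.append_left, Fin.append_right]

lemma KB2_sub {P Q : G → K} (hP : GFam H P) (hQ : GFam H Q) (s : K) :
    GFam H (fun g => P g - s * Q g) := by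
  have h1 := KB2_add hP (KB2_scale hQ (-s))
  have h2 : (fun g => P g + -s * Q g) = fun g => P g - s * Q g := by
    funext g
    ring
  rw [h2] at h1
  exact h1

lemma KB2_one : GFam H (fun _ => (1 : K)) := by
  refine ⟨1, fun _ => 1, fun _ => 1, fun _ => one_mem H, fun g => ?_⟩
  simp

lemma KB2_mul {P Q : G → K} (hP : GFam H P) (hQ : GFam H Q) : GFam H (fun g => P g * Q g) := by
  obtain ⟨n, h, k, hh, hk⟩ := hP
  obtain ⟨n', h', k', hh', hk'⟩ := hQ
  refine ⟨n * n', fun i => h (finProdFinEquiv.symm i).1 * h' (finProdFinEquiv.symm i).2,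
    fun i => k (finProdFinEquiv.symm i).1 * k' (finProdFinEquiv.symm i).2, ?_, fun g => ?_⟩
  · intro i
    exact mul_mem (hh _) (hh' _)
  · show P g * Q g = ∑ i, (h (finProdFinEquiv.symm i).1 * h' (finProdFinEquiv.symm i).2) g •
      (k (finProdFinEquiv.symm i).1 * k' (finProdFinEquiv.symm i).2)
    rw [hk g, hk' g, Finset.sum_mul_sum, ← Fintype.sum_prod_type']
    refine Fintype.sum_equiv finProdFinEquiv _ _ fun p => ?_
    rw [Equiv.symm_apply_apply, Pi.mul_apply, smul_mul_smul_comm]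

/-- no zero divisors -/
lemma KB2_dom (hI : IrrFun H) {P Q : G → K} (hP : GFam H P) (hQ : GFam H Q)
    (h0 : ∀ g, P g * Q g = 0) : (∀ g, P g = 0) ∨ ∀ g, Q g = 0 := by
  classical
  by_contra hcon
  push Not at hcon
  obtain ⟨⟨g0, hg0⟩, g1, hg1⟩ := hcon
  obtain ⟨n, h, k, hh, hk⟩ := hP
  obtain ⟨n', h', k', hh', hk'⟩ := hQ
  set s : Finset K := Finset.univ.image k ∪ Finset.univ.image k' with hs
  set R : Subalgebra ℂ K := Algebra.adjoin ℂ (s : Set K) with hR
  have hft : Algebra.FiniteType ℂ R := (Subalgebra.fg_iff_finiteType _).1 (Subalgebra.fg_adjoin_finset s)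
  have hk1 : ∀ i, k i ∈ R := fun i => Algebra.subset_adjoin (by simp [hs])
  have hk2 : ∀ i, k' i ∈ R := fun i => Algebra.subset_adjoin (by simp [hs])
  have hPR : ∀ g, P g = ((∑ i, h i g • (⟨k i, hk1 i⟩ : R) : R) : K) := by
    intro g
    rw [hk g]
    simp
  have hQR : ∀ g, Q g = ((∑ i, h' i g • (⟨k' i, hk2 i⟩ : R) : R) : K) := by
    intro g
    rw [hk' g]
    simp
  obtain ⟨φ, hφ⟩ := KB2_pt ((∑ i, h i g0 • (⟨k i, hk1 i⟩ : R)) * ∑ i, h' i g1 • (⟨k' i, hk2 i⟩ : R))
    (by
      intro hz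
      have := congrArg (fun x : R => (x : K)) hz
      simp only [MulMemClass.coe_mul, ZeroMemClass.coe_zero] at this
      rw [← hPR, ← hQR] at this
      exact (mul_ne_zero hg0 hg1) this)
  rw [map_mul] at hφ
  have hf : (fun g => φ (∑ i, h i g • (⟨k i, hk1 i⟩ : R))) ∈ H := by
    have : (fun g => φ (∑ i, h i g • (⟨k i, hk1 i⟩ : R))) =
        ∑ i, (φ ⟨k i, hk1 i⟩) • h i := by
      funext g
      rw [map_sum, Finset.sum_apply]
      exact Finset.sum_congr rfl fun i _ => by
        rw [map_smul, Pi.smul_apply, smul_eq_mul, smul_eq_mul, mul_comm]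
    rw [this]
    exact sum_mem fun i _ => H.smul_mem (hh i) _
  have hf' : (fun g => φ (∑ i, h' i g • (⟨k' i, hk2 i⟩ : R))) ∈ H := by
    have : (fun g => φ (∑ i, h' i g • (⟨k' i, hk2 i⟩ : R))) =
        ∑ i, (φ ⟨k' i, hk2 i⟩) • h' i := by
      funext g
      rw [map_sum, Finset.sum_apply]
      exact Finset.sum_congr rfl fun i _ => by
        rw [map_smul, Pi.smul_apply, smul_eq_mul, smul_eq_mul, mul_comm]
    rw [this]
    exact sum_mem fun i _ => H.smul_mem (hh' i) _
  have hprod : (fun g => φ (∑ i, h i g • (⟨k i, hk1 i⟩ : R))) *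
      (fun g => φ (∑ i, h' i g • (⟨k' i, hk2 i⟩ : R))) = 0 := by
    funext g
    rw [Pi.mul_apply, ← map_mul]
    have : (∑ i, h i g • (⟨k i, hk1 i⟩ : R)) * ∑ i, h' i g • (⟨k' i, hk2 i⟩ : R) = 0 := by
      apply Subtype.ext
      rw [MulMemClass.coe_mul, ← hPR, ← hQR, h0 g]
      rfl
    rw [this, map_zero]
    rfl
  rcases hI _ hf _ hf' hprod with h1 | h1
  · exact left_ne_zero_of_mul hφ (congrFun h1 g0)
  · exact right_ne_zero_of_mul hφ (congrFun h1 g1)

lemma KB2_prod (hI : IrrFun H) {N D : G → K} (hN : GFam H N) (hD : GFam H D) [Nonempty G]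
    (S : Finset K) : GFam H (fun g => ∏ s ∈ S, (N g - s * D g)) ∧
      ((∀ g, ∏ s ∈ S, (N g - s * D g) = 0) → ∃ s ∈ S, ∀ g, N g - s * D g = 0) := by
  classical
  induction S using Finset.induction_on with
  | empty =>
    refine ⟨?_, fun h => ?_⟩
    · simpa using KB2_one
    · obtain ⟨g⟩ := (inferInstance : Nonempty G)
      simpa using h g
  | insert a s ha ih =>
    simp only [Finset.prod_insert ha]
    refine ⟨KB2_mul (KB2_sub hN hD a) ih.1, fun h => ?_⟩
    rcases KB2_dom hI (KB2_sub hN hD a) ih.1 h with h1 | h1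
    · exact ⟨a, Finset.mem_insert_self a s, h1⟩
    · obtain ⟨s', hs', h2⟩ := ih.2 h1
      exact ⟨s', Finset.mem_insert_of_mem hs', h2⟩

end

lemma KB2_trans {G K : Type} [Group G] [Field K] [Algebra ℂ K] {H : Subalgebra ℂ (G → ℂ)}
    (hH : HopfFun H) {P : G → K} (hP : GFam H P) (g : G) : GFam H (fun x => P (g * x)) := by
  obtain ⟨n, h, k, hh, hk⟩ := hP
  refine ⟨n, fun i x => h i (g * x), k, ?_, fun x => hk _⟩
  intro i
  obtain ⟨m, a, b, -, hb, hab⟩ := hH.mul (h i) (hh i)
  have : (fun x => h i (g * x)) = ∑ j, a j g • b j := by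
    funext x
    rw [hab g x, Finset.sum_apply]
    exact Finset.sum_congr rfl fun j _ => rfl
  show (fun x => h i (g * x)) ∈ H
  rw [this]
  exact sum_mem fun j _ => H.smul_mem (hb j) _

/-- nonconstant elements are transcendental -/
lemma KB2_transc {K : Type} [Field K] [Algebra ℂ K] {t : K}
    (ht : ∀ c : ℂ, t ≠ algebraMap ℂ K c) : Transcendental ℂ t := by
  intro h
  have hi : IsIntegral ℂ t := h.isIntegral
  have h1 := IsAlgClosed.degree_eq_one_of_irreducible ℂ (minpoly.irreducible hi)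
  obtain ⟨c, hc⟩ := minpoly.mem_range_of_degree_eq_one ℂ t h1
  exact ht c hc.symm

/-- an algebraic relation gives a polynomial over the field generated by the second element -/
lemma KB2_poly {K : Type} [Field K] [Algebra ℂ K] {t z : K}
    (ht : ∀ c : ℂ, t ≠ algebraMap ℂ K c) (h : AlgDep z t) :
    ∃ Q : Polynomial K, Q ≠ 0 ∧ Q.eval z = 0 ∧
      ∀ i, ∃ f : MvPolynomial (Fin 1) ℂ, Q.coeff i = MvPolynomial.aeval ![t] f := by
  obtain ⟨P, hP0, hP⟩ := h
  have hinj : Function.Injective (MvPolynomial.aeval ![t] : MvPolynomial (Fin 1) ℂ →ₐ[ℂ] K) := by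
    have : AlgebraicIndependent ℂ ![t] := by
      rw [algebraicIndependent_unique_type_iff]
      exact KB2_transc ht
    exact this
  let ev : MvPolynomial (Fin 1) ℂ →+* K :=
    (MvPolynomial.aeval ![t] : MvPolynomial (Fin 1) ℂ →ₐ[ℂ] K).toRingHom
  refine ⟨(MvPolynomial.finSuccEquiv ℂ 1 P).map ev, ?_, ?_, ?_⟩
  · intro h0
    have h1 : MvPolynomial.finSuccEquiv ℂ 1 P = 0 := by
      apply Polynomial.map_injective ev hinj
      rw [h0, Polynomial.map_zero]
    exact hP0 ((map_eq_zero_iff _ (MvPolynomial.finSuccEquiv ℂ 1).injective).1 h1)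
  · rw [Polynomial.eval_map]
    have key : (Polynomial.eval₂RingHom ev z).comp
        ((MvPolynomial.finSuccEquiv ℂ 1 :
          MvPolynomial (Fin 2) ℂ →+* Polynomial (MvPolynomial (Fin 1) ℂ))) =
        (MvPolynomial.aeval ![z, t] : MvPolynomial (Fin 2) ℂ →ₐ[ℂ] K).toRingHom := by
      rw [MvPolynomial.finSuccEquiv_eq]
      apply MvPolynomial.ringHom_ext
      · intro c
        simp [ev]
      · intro i
        fin_cases i
        · simp
        · simp
          have : (Fin.cases Polynomial.X (fun k => Polynomial.C (MvPolynomial.X k)) (1 : Fin 2) :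
            Polynomial (MvPolynomial (Fin 1) ℂ)) = Polynomial.C (MvPolynomial.X 0) := rfl
          rw [this]
          simp [ev]
    have := congrArg (fun f : MvPolynomial (Fin 2) ℂ →+* K => f P) key
    exact this.trans hP
  · intro i
    exact ⟨(MvPolynomial.finSuccEquiv ℂ 1 P).coeff i, by rw [Polynomial.coeff_map]; rfl⟩

theorem st_KB2 : ST_KB2 := by
  classical
  intro G _ H hH hI K _ _ ρ hrat B hdep htex z hz
  obtain ⟨t, htF, htc⟩ := htex
  have hd := hdep z t hz fun b _ => htF b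
  obtain ⟨Q, hQ0, hQz, hQc⟩ := KB2_poly htc hd
  have hQinv : ∀ i g, ρ g (Q.coeff i) = Q.coeff i := by
    intro i g
    obtain ⟨f, hf⟩ := hQc i
    rw [hf]
    have h1 := MvPolynomial.comp_aeval_apply (f := ![t]) ((ρ g) : K →ₐ[ℂ] K) f
    have h2 : (fun i => ((ρ g) : K →ₐ[ℂ] K) ((![t] : Fin 1 → K) i)) = ![t] := by
      funext i
      fin_cases i
      exact htF g
    rw [h2] at h1
    exact h1
  have hroot : ∀ g, ρ g z ∈ Q.roots.toFinset := by
    intro g
    rw [Multiset.mem_toFinset, Polynomial.mem_roots hQ0, Polynomial.IsRoot.def]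
    have h1 := congrArg (ρ g) hQz
    rw [map_zero, Polynomial.eval_eq_sum_range, map_sum] at h1
    rw [Polynomial.eval_eq_sum_range, ← h1]
    exact Finset.sum_congr rfl fun i _ => by rw [map_mul, map_pow, hQinv]
  obtain ⟨N, D, hN, hD, hD1, hND⟩ := hrat z
  obtain ⟨s, hs, hs'⟩ := (KB2_prod hI hN hD Q.roots.toFinset).2 (by
    intro g
    refine Finset.prod_eq_zero (hroot g) ?_
    rw [← hND g]
    ring)
  have hsz : s = z := by
    have h1 := hs' 1
    rw [← hND 1, map_one] at h1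
    have h2 : D 1 * (z - s) = 0 := by
      rw [← h1]
      show D 1 * (z - s) = D 1 * z - s * D 1
      ring
    rcases mul_eq_zero.1 h2 with h3 | h3
    · exact absurd h3 hD1
    · exact (sub_eq_zero.1 h3).symm
  subst hsz
  have hstab : ∀ g, D g ≠ 0 → ρ g s = s := by
    intro g hg
    have h1 := hs' g
    rw [← hND g] at h1
    have h2 : D g * (ρ g s - s) = 0 := by
      rw [← h1]
      ring
    rcases mul_eq_zero.1 h2 with h3 | h3
    · exact absurd h3 hg
    · exact sub_eq_zero.1 h3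
  rw [mem_fixF]
  intro g
  have hex : ∃ b, D (g * b) ≠ 0 ∧ D b ≠ 0 := by
    by_contra hcon
    push Not at hcon
    have h0 : ∀ b, D (g * b) * D b = 0 := by
      intro b
      by_cases hb : D (g * b) = 0
      · rw [hb, zero_mul]
      · rw [hcon b hb, mul_zero]
    rcases KB2_dom hI (KB2_trans hH hD g) hD h0 with h1 | h1
    · have := h1 g⁻¹
      rw [mul_inv_cancel] at this
      exact hD1 this
    · exact hD1 (h1 1)
  obtain ⟨b, hb1, hb2⟩ := hex
  have h1 := hstab _ hb1
  rw [map_mul, AlgEquiv.mul_apply, hstab b hb2] at h1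
  exact h1

end Pool.Agent.Helper43.FV
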