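import Pool.Agent.Helper43.FV.Spec

/-!
# Residue fields of places
-/

namespace Pool.Agent.Helper43.FV

open Pool.Agent.Helper43.RS

/-- algebraic relations as polynomials in one variable over polynomials in one variable -/
lemma RES_poly {K : Type} [Field K] [Algebra ℂ K] {t z : K} (h : AlgDep t z) :
    ∃ Q : Polynomial (Polynomial ℂ), Q ≠ 0 ∧
      Q.eval₂ (Polynomial.aeval z : Polynomial ℂ →ₐ[ℂ] K).toRingHom t = 0 := by
  obtain ⟨P, hP0, hP⟩ := h
  have hinj : Function.Injective
      (MvPolynomial.aeval ![Polynomial.X] : MvPolynomial (Fin 1) ℂ →ₐ[ℂ] Polynomial ℂ) := by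
    have : AlgebraicIndependent ℂ ![(Polynomial.X : Polynomial ℂ)] := by
      rw [algebraicIndependent_unique_type_iff]
      exact Polynomial.transcendental_X ℂ
    exact this
  let ev : MvPolynomial (Fin 1) ℂ →+* Polynomial ℂ :=
    (MvPolynomial.aeval ![Polynomial.X] : MvPolynomial (Fin 1) ℂ →ₐ[ℂ] Polynomial ℂ).toRingHom
  refine ⟨(MvPolynomial.finSuccEquiv ℂ 1 P).map ev, ?_, ?_⟩
  · intro h0
    have h1 : MvPolynomial.finSuccEquiv ℂ 1 P = 0 := by
      apply Polynomial.map_injective ev hinj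
      rw [h0, Polynomial.map_zero]
    exact hP0 ((map_eq_zero_iff _ (MvPolynomial.finSuccEquiv ℂ 1).injective).1 h1)
  · rw [Polynomial.eval₂_map]
    have key : (Polynomial.eval₂RingHom
        ((Polynomial.aeval z : Polynomial ℂ →ₐ[ℂ] K).toRingHom.comp ev) t).comp
        ((MvPolynomial.finSuccEquiv ℂ 1 :
          MvPolynomial (Fin 2) ℂ →+* Polynomial (MvPolynomial (Fin 1) ℂ))) =
        (MvPolynomial.aeval ![t, z] : MvPolynomial (Fin 2) ℂ →ₐ[ℂ] K).toRingHom := by
      rw [MvPolynomial.finSuccEquiv_eq]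
      apply MvPolynomial.ringHom_ext
      · intro c
        simp [ev]
      · intro i
        fin_cases i
        · simp
        · simp
          have : (Fin.cases Polynomial.X (fun k => Polynomial.C (MvPolynomial.X k)) (1 : Fin 2) :
            Polynomial (MvPolynomial (Fin 1) ℂ)) = Polynomial.C (MvPolynomial.X 0) := rfl
          rw [this]
          simp [ev]
    have := congrArg (fun f : MvPolynomial (Fin 2) ℂ →+* K => f P) key
    exact this.trans hP

section

variable {F : Type} [Field F] [Algebra ℂ F] {w : F → ℤ}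

lemma RES_one (hw : IsPlace w) : w 1 = 0 := by
  have := hw.const 1
  rwa [map_one] at this

lemma RES_neg (hw : IsPlace w) (a : F) : w (-a) = w a := by
  by_cases ha : a = 0
  · rw [ha, neg_zero]
  · have h1 : (-1 : F) ≠ 0 := neg_ne_zero.2 one_ne_zero
    have h2 := hw.mul (-1) a h1 ha
    have h3 := hw.const (-1)
    rw [map_neg, map_one] at h3
    rw [neg_one_mul, h3, zero_add] at h2
    exact h2

lemma RES_add (hw : IsPlace w) {a b : F} (ha : 0 ≤ w a) (hb : 0 ≤ w b) : 0 ≤ w (a + b) := by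
  by_cases h1 : a = 0
  · rw [h1, zero_add]; exact hb
  by_cases h2 : b = 0
  · rw [h2, add_zero]; exact ha
  by_cases h3 : a + b = 0
  · rw [h3, hw.zero]
  · exact (le_min ha hb).trans (hw.add a b h1 h2 h3)

lemma RES_mul (hw : IsPlace w) {a b : F} (ha : 0 ≤ w a) (hb : 0 ≤ w b) : 0 ≤ w (a * b) := by
  by_cases h1 : a = 0
  · rw [h1, zero_mul, hw.zero]
  by_cases h2 : b = 0
  · rw [h2, mul_zero, hw.zero]
  rw [hw.mul a b h1 h2]
  exact add_nonneg ha hb

/-- the valuation ring as a subalgebra -/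
def RES_ring (hw : IsPlace w) : Subalgebra ℂ F where
  carrier := {a | 0 ≤ w a}
  mul_mem' := fun ha hb => RES_mul hw ha hb
  add_mem' := fun ha hb => RES_add hw ha hb
  algebraMap_mem' := fun c => (hw.const c).ge

lemma RES_mem (hw : IsPlace w) {a : F} : a ∈ RES_ring hw ↔ 0 ≤ w a := Iff.rfl

lemma RES_eval (hw : IsPlace w) {a b : F} (ha : 0 ≤ w a) (hb : 0 ≤ w b)
    (Q : Polynomial (Polynomial ℂ)) :
    0 ≤ w (Q.eval₂ (Polynomial.aeval a : Polynomial ℂ →ₐ[ℂ] F).toRingHom b) := by
  rw [← RES_mem hw, Polynomial.eval₂_eq_sum]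
  refine sum_mem fun i _ => mul_mem ?_ (pow_mem ((RES_mem hw).2 hb) i)
  show Polynomial.aeval a (Q.coeff i) ∈ RES_ring hw
  rw [Polynomial.aeval_eq_sum_range]
  exact sum_mem fun j _ => (RES_ring hw).smul_mem (pow_mem ((RES_mem hw).2 ha) j) _

/-- a polynomial in `f` with positive value has a root congruent to `f` -/
lemma RES_root (hw : IsPlace w) (f : F) : ∀ (n : ℕ) (q : Polynomial ℂ), q.natDegree ≤ n → q ≠ 0 →
    (Polynomial.aeval f q = 0 ∨ 0 < w (Polynomial.aeval f q)) →
    ∃ c : ℂ, f = algebraMap ℂ F c ∨ 0 < w (f - algebraMap ℂ F c) := by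
  intro n
  induction n with
  | zero =>
    intro q hq hq0 h
    exfalso
    rw [Polynomial.eq_C_of_natDegree_le_zero hq] at h hq0
    have h1 : q.coeff 0 ≠ 0 := by
      intro h2
      rw [h2, map_zero] at hq0
      exact hq0 rfl
    rw [Polynomial.aeval_C] at h
    rcases h with h | h
    · exact h1 ((map_eq_zero_iff _ (algebraMap ℂ F).injective).1 h)
    · rw [hw.const] at h
      exact lt_irrefl _ h
  | succ n ih =>
    intro q hq hq0 h
    by_cases hd : q.degree ≤ 0
    · exact ih q ((Polynomial.natDegree_le_iff_degree_le.2 hd).trans (Nat.zero_le _)) hq0 h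
    · obtain ⟨c, hc⟩ := IsAlgClosed.exists_root q (by
        intro h0
        exact hd h0.le)
      obtain ⟨q', rfl⟩ := Polynomial.dvd_iff_isRoot.2 hc
      have hq'0 : q' ≠ 0 := right_ne_zero_of_mul hq0
      have hq' : q'.natDegree ≤ n := by
        rw [Polynomial.natDegree_mul (Polynomial.X_sub_C_ne_zero c) hq'0,
          Polynomial.natDegree_X_sub_C] at hq
        omega
      rw [map_mul, map_sub, Polynomial.aeval_X, Polynomial.aeval_C] at h
      by_cases h1 : f - algebraMap ℂ F c = 0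
      · exact ⟨c, Or.inl (sub_eq_zero.1 h1)⟩
      by_cases h2 : Polynomial.aeval f q' = 0
      · exact ih q' hq' hq'0 (Or.inl h2)
      rcases h with h | h
      · exact absurd h (mul_ne_zero h1 h2)
      · rw [hw.mul _ _ h1 h2] at h
        by_cases h3 : 0 < w (f - algebraMap ℂ F c)
        · exact ⟨c, Or.inr h3⟩
        · exact ih q' hq' hq'0 (Or.inr (by omega))

end

theorem st_RES : ST_RES := by
  intro F _ _ hF w f hf0 hf
  obtain ⟨t, ht0, ht⟩ := w.2.one
  obtain ⟨Q, hQ0, hQ⟩ := RES_poly (hF.dep t f)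
  obtain ⟨P, hP, hnd⟩ := Polynomial.exists_eq_pow_rootMultiplicity_mul_and_not_dvd Q hQ0 0
  rw [map_zero, sub_zero, Polynomial.X_dvd_iff] at hnd
  rw [hP, map_zero, sub_zero, Polynomial.eval₂_mul, Polynomial.eval₂_pow, Polynomial.eval₂_X] at hQ
  have hP0 := (mul_eq_zero.1 hQ).resolve_left (pow_ne_zero _ ht0)
  have hdiv := Polynomial.X_mul_divX_add P
  rw [← hdiv, Polynomial.eval₂_add, Polynomial.eval₂_mul, Polynomial.eval₂_X,
    Polynomial.eval₂_C] at hP0
  have hR := RES_eval w.2 hf.ge (by rw [ht]; exact zero_le_one) P.divX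
  set R : F := P.divX.eval₂ (Polynomial.aeval f : Polynomial ℂ →ₐ[ℂ] F).toRingHom t with hRdef
  have hq : Polynomial.aeval f (P.coeff 0) = -(t * R) :=
    eq_neg_of_add_eq_zero_right hP0
  have hpos : Polynomial.aeval f (P.coeff 0) = 0 ∨ 0 < w.1 (Polynomial.aeval f (P.coeff 0)) := by
    by_cases hR0 : R = 0
    · left
      rw [hq, hR0, mul_zero, neg_zero]
    · right
      rw [hq, RES_neg w.2, w.2.mul _ _ ht0 hR0, ht]
      omega
  obtain ⟨c, hc⟩ := RES_root w.2 f _ (P.coeff 0) le_rfl hnd hpos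
  refine ⟨c, ?_, hc⟩
  rintro rfl
  rw [map_zero, sub_zero] at hc
  rcases hc with hc | hc
  · exact hf0 hc
  · rw [hf] at hc
    exact lt_irrefl _ hc

end Pool.Agent.Helper43.FV
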